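import Pool.Agent.IndSat.Final

set_option autoImplicit false

namespace Pool.Agent.Results.MP_cdca5f_co.AlmostAllSaturated

/-- `G` is `H`-induced-saturated: `G` has no induced copy of `H`, and every graph `G'` on the same
vertex set that differs from `G` in exactly one pair `e` has an induced copy of `H`. -/
def InducedSaturated {n m : ℕ} (H : SimpleGraph (Fin n)) (G : SimpleGraph (Fin m)) : Prop :=
  IsEmpty (H ↪g G) ∧
    ∀ G' : SimpleGraph (Fin m),
      (∃ e : Sym2 (Fin m), ∀ f : Sym2 (Fin m),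
        ((f ∈ G.edgeSet ↔ f ∈ G'.edgeSet) ↔ f ≠ e)) →
      Nonempty (H ↪g G')

/-- `H` has a finite `H`-induced-saturated graph on at least two (and at least `n`) vertices. -/
def HasFiniteSaturated {n : ℕ} (H : SimpleGraph (Fin n)) : Prop :=
  ∃ m : ℕ, 2 ≤ m ∧ n ≤ m ∧ ∃ G : SimpleGraph (Fin m), InducedSaturated H G

/-- Almost every graph `H` has a finite `H`-induced-saturated graph: for every `ε > 0` and all
large `n`, all but at most an `ε`-fraction of the labelled graphs `H` on `n` vertices do. -/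
theorem result :
    ∀ ε : ℝ, 0 < ε → ∃ N : ℕ, ∀ n : ℕ, N ≤ n →
      (1 - ε) * (Nat.card (SimpleGraph (Fin n)) : ℝ) ≤
        (Nat.card {H : SimpleGraph (Fin n) // HasFiniteSaturated H} : ℝ) := by
  intro ε hε
  obtain ⟨N, hN⟩ := IndSat.almost_all ε hε
  refine ⟨max N 2, fun n hn => (hN n (le_trans (le_max_left _ _) hn)).trans ?_⟩
  have h2 : 2 ≤ n := le_trans (le_max_right _ _) hn
  norm_cast
  classical
  apply Nat.card_le_card_of_injective
    (fun H : {H : SimpleGraph (Fin n) //
        ∃ m : ℕ, n ≤ m ∧ ∃ G : SimpleGraph (Fin m), IndSat.Sat H G} =>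
      (⟨H.1, by
        obtain ⟨m, hm, G, hG⟩ := H.2
        exact ⟨m, le_trans h2 hm, hm, G, hG⟩⟩ :
          {H : SimpleGraph (Fin n) // HasFiniteSaturated H}))
  intro H H' h
  have h3 := congrArg Subtype.val h
  exact Subtype.ext h3

end Pool.Agent.Results.MP_cdca5f_co.AlmostAllSaturated
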