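import Pool.Agent.HPP.Bridge
import Pool.Agent.HPP.Compl
import Pool.Agent.HPP.Almost
import Pool.Agent.HPP3.BareP

set_option autoImplicit false

namespace Pool.Agent.Results.MP_cdca5f_co.BridgePaths

/-- `G` is `H`-induced-saturated: `G` has no induced copy of `H`, and every graph `G'` on the same
vertex set that differs from `G` in exactly one pair `e` has an induced copy of `H`. -/
def InducedSaturated {n m : ℕ} (H : SimpleGraph (Fin n)) (G : SimpleGraph (Fin m)) : Prop :=
  IsEmpty (H ↪g G) ∧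
    ∀ G' : SimpleGraph (Fin m),
      (∃ e : Sym2 (Fin m), ∀ f : Sym2 (Fin m),
        ((f ∈ G.edgeSet ↔ f ∈ G'.edgeSet) ↔ f ≠ e)) →
      Nonempty (H ↪g G')

/-- `H` has a finite `H`-induced-saturated graph on at least two (and at least `n`) vertices. -/
def HasFiniteSaturated {n : ℕ} (H : SimpleGraph (Fin n)) : Prop :=
  ∃ m : ℕ, 2 ≤ m ∧ n ≤ m ∧ ∃ G : SimpleGraph (Fin m), InducedSaturated H G

/-- `H` has a path with the `N + 1` different vertices `a 0, …, a N`, the inner vertices
`a 1, …, a (N - 1)` having no other neighbours, all edges of which are bridges. -/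
def HasBridgePath {n : ℕ} (H : SimpleGraph (Fin n)) (N : ℕ) : Prop :=
  ∃ a : ℕ → Fin n, (∀ i j, i ≤ N → j ≤ N → a i = a j → i = j) ∧
    (∀ i, 0 < i → i < N → ∀ v, H.Adj (a i) v ↔ v = a (i - 1) ∨ v = a (i + 1)) ∧
    ∀ i, i < N → H.IsBridge s(a i, a (i + 1))

/-- `H` has a pendant path with the `N` different vertices `a 1, …, a N`, attached at another
vertex `a 0`: `a 1, …, a N` have no other neighbours than the previous and the next vertex. -/
def HasPendantPath {n : ℕ} (H : SimpleGraph (Fin n)) (N : ℕ) : Prop :=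
  ∃ a : ℕ → Fin n, (∀ i j, i ≤ N → j ≤ N → a i = a j → i = j) ∧
    ∀ i, 0 < i → i ≤ N → ∀ v, H.Adj (a i) v ↔ v = a (i - 1) ∨ (i < N ∧ v = a (i + 1))

private lemma both {n : ℕ} {H : SimpleGraph (Fin n)} (hn : 2 ≤ n)
    (hh : ∃ d, IndSat.Sat H (HPP.Gr d) ∧ Nat.card (Fin n) ≤ Nat.card (HPP.Pt d)) :
    HasFiniteSaturated H ∧ HasFiniteSaturated Hᶜ := by
  obtain ⟨d, hd, hc⟩ := hh
  rw [Nat.card_fin] at hc
  have hS := hd.transport (Finite.equivFin (HPP.Pt d)).symm
  exact ⟨⟨_, le_trans hn hc, hc, _, hS⟩, ⟨_, le_trans hn hc, hc, _, HPP.sat_compl hS⟩⟩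

private lemma card_ge {n N : ℕ} (hN : 1 ≤ N) (a : ℕ → Fin n)
    (hinj : ∀ i j, i ≤ N → j ≤ N → a i = a j → i = j) : 2 ≤ n := by
  have h1 : a 0 ≠ a 1 := fun h0 => by
    have := hinj 0 1 (by omega) hN h0
    omega
  have h2 := (a 0).2
  have h3 := (a 1).2
  have h4 : (a 0 : ℕ) ≠ a 1 := fun h => h1 (Fin.ext h)
  omega

private lemma bridge {n N : ℕ} {H : SimpleGraph (Fin n)} (hN : 15 ≤ N) (hH : HasBridgePath H N) :
    HasFiniteSaturated H ∧ HasFiniteSaturated Hᶜ := by
  obtain ⟨a, hinj, hadj, hbr⟩ := hH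
  exact both (card_ge (by omega) a hinj) (HPP.host3 hN hinj hadj (hbr 10 (by omega)))

private lemma pendant {n N : ℕ} {H : SimpleGraph (Fin n)} (hN : 10 ≤ N)
    (hH : HasPendantPath H N) : HasFiniteSaturated H ∧ HasFiniteSaturated Hᶜ := by
  obtain ⟨a, hinj, hadj⟩ := hH
  refine both (card_ge (by omega) a hinj) (HPP.host (a := a) hN ⟨hinj, ?_⟩)
  intro i hi v
  rw [hadj (i + 1) (by omega) (by omega), Nat.add_sub_cancel]
  exact Iff.rfl

/-- (1) If `H` has a pendant path with at least 10 vertices (besides the vertex to which it is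
attached) or a path of bridges with at least 14 inner vertices, all of degree two, then `H` and its
complement have finite induced-saturated graphs.
(2) For `k ≥ 2` every tree with at most `k` leaves and at least `28 k - 40` vertices, and its
complement, have finite induced-saturated graphs.
(3) For every `ε > 0` and every large `n`, among the trees on `n` labelled vertices those which,
together with their complements, have finite induced-saturated graphs are at least `(1 - ε)` of
all. -/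
theorem result :
    (∀ (n N : ℕ) (H : SimpleGraph (Fin n)),
      (10 ≤ N ∧ HasPendantPath H N) ∨ (15 ≤ N ∧ HasBridgePath H N) →
        HasFiniteSaturated H ∧ HasFiniteSaturated Hᶜ) ∧
    (∀ (k n : ℕ) (T : SimpleGraph (Fin n)), 2 ≤ k → 28 * k ≤ n + 40 → T.IsTree →
      {v | {w | T.Adj v w}.ncard = 1}.ncard ≤ k →
        HasFiniteSaturated T ∧ HasFiniteSaturated Tᶜ) ∧
    (∀ ε : ℝ, 0 < ε → ∃ N : ℕ, ∀ n, N ≤ n →
      (1 - ε) * ({T : SimpleGraph (Fin n) | T.IsTree}.ncard : ℝ) ≤
        ({T : SimpleGraph (Fin n) |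
          T.IsTree ∧ HasFiniteSaturated T ∧ HasFiniteSaturated Tᶜ}.ncard : ℝ)) := by
  refine ⟨?_, ?_, ?_⟩
  · rintro n N H (⟨hN, hH⟩ | ⟨hN, hH⟩)
    · exact pendant hN hH
    · exact bridge hN hH
  · intro k n T hk2 hn hT hk
    obtain ⟨a, hinj, hadj⟩ := HPP3.exists_bare_par hk2 hn T hT hk
    refine bridge (le_refl 15) ⟨a, hinj, hadj, fun i hi => ?_⟩
    have hac := SimpleGraph.isAcyclic_iff_forall_adj_isBridge.1 hT.isAcyclic
    apply hac
    rcases Nat.eq_zero_or_pos i with rfl | h0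
    · exact ((hadj 1 (by omega) (by omega) (a 0)).2 (Or.inl rfl)).symm
    · exact (hadj i h0 hi _).2 (Or.inr rfl)
  · intro ε hε
    obtain ⟨N, h⟩ := HPP.almost ε hε
    refine ⟨N, fun n hn => (h n hn).trans ?_⟩
    rw [Nat.cast_le]
    exact Set.ncard_le_ncard (fun T hT => ⟨hT.1, pendant le_rfl hT.2⟩) (Set.toFinite _)

end Pool.Agent.Results.MP_cdca5f_co.BridgePaths
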