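import Pool.Agent.IndSat.KnPend

set_option autoImplicit false

namespace Pool.Agent.Results.MP_cdca5f_co.PendantVertices

/-- `G` is `H`-induced-saturated: `G` has no induced copy of `H`, and every graph `G'` on the same
vertex set that differs from `G` in exactly one pair `e` has an induced copy of `H`. -/
def InducedSaturated {n m : ℕ} (H : SimpleGraph (Fin n)) (G : SimpleGraph (Fin m)) : Prop :=
  IsEmpty (H ↪g G) ∧
    ∀ G' : SimpleGraph (Fin m),
      (∃ e : Sym2 (Fin m), ∀ f : Sym2 (Fin m),
        ((f ∈ G.edgeSet ↔ f ∈ G'.edgeSet) ↔ f ≠ e)) →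
      Nonempty (H ↪g G')

/-- `H` has a finite `H`-induced-saturated graph on at least two (and at least `n`) vertices. -/
def HasFiniteSaturated {n : ℕ} (H : SimpleGraph (Fin n)) : Prop :=
  ∃ m : ℕ, 2 ≤ m ∧ n ≤ m ∧ ∃ G : SimpleGraph (Fin m), InducedSaturated H G

/-- `H` is the intersection graph of distinct sets with `r` elements. -/
def IsSetGraph {V : Type} (H : SimpleGraph V) (r : ℕ) : Prop :=
  ∃ A : V → Finset ℕ, Function.Injective A ∧ (∀ x, (A x).card = r) ∧
    ∀ x y, x ≠ y → (H.Adj x y ↔ ∃ i, i ∈ A x ∧ i ∈ A y)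

/-- the number of neighbours -/
noncomputable def deg {n : ℕ} (H : SimpleGraph (Fin n)) (x : Fin n) : ℕ := {y | H.Adj x y}.ncard

/-- the number of pendant vertices at `c`: vertices whose only neighbour is `c` -/
noncomputable def pend {n : ℕ} (H : SimpleGraph (Fin n)) (c : Fin n) : ℕ :=
  {l | ∀ y, H.Adj l y ↔ y = c}.ncard

private lemma host {n : ℕ} {H : SimpleGraph (Fin n)} {c u v : Fin n} (huv : u ≠ v)
    (hu : ∀ y, H.Adj u y ↔ y = c) (hv : ∀ y, H.Adj v y ↔ y = c) {r : ℕ}
    (h1 : IndSat.Rep (H.induce {x | x ≠ v}) r) (h2 : ¬ IndSat.Rep H r) : HasFiniteSaturated H := by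
  obtain ⟨N, hN⟩ := IndSat.sat_of_twins huv ((hu c).2 rfl).symm ((hv c).2 rfl).symm
    (fun w hw => (hu w).1 hw) (fun w hw => (hv w).1 hw) h1 h2
  obtain ⟨hS, ⟨f⟩⟩ := hN N le_rfl
  refine ⟨Fintype.card {A : Finset (Fin N) // A.card = r}, ?_, ?_, ?_⟩
  · have h3 := Fintype.card_le_of_embedding f
    rw [Fintype.card_fin] at h3
    have h4 : 2 ≤ n := by
      have := u.2
      have := v.2
      have h5 : (u : ℕ) ≠ v := fun h => huv (Fin.ext h)
      omega
    exact h4.trans h3
  · have h3 := Fintype.card_le_of_embedding f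
    rw [Fintype.card_fin] at h3
    exact h3
  · exact ⟨_, hS.transport (Fintype.equivFin {A : Finset (Fin N) // A.card = r}).symm⟩

/-- (1) If `u ≠ v` are pendant at `c` and, for some `r`, `H - v` is the intersection graph of
distinct `r`-sets and `H` is not, then `H` has a finite `H`-induced-saturated graph.
(2) If `c` has degree at least 3 and at least two pendant neighbours, and every other vertex has
smaller degree than `c` and at most as many neighbours as `c` has pendant neighbours, then `H` has a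
finite `H`-induced-saturated graph. -/
theorem result :
    (∀ (n : ℕ) (H : SimpleGraph (Fin n)) (c u v : Fin n), u ≠ v →
      (∀ y, H.Adj u y ↔ y = c) → (∀ y, H.Adj v y ↔ y = c) →
      (∃ r : ℕ, IsSetGraph (H.induce {x | x ≠ v}) r ∧ ¬ IsSetGraph H r) → HasFiniteSaturated H) ∧
    (∀ (n : ℕ) (H : SimpleGraph (Fin n)) (c : Fin n), 3 ≤ deg H c → 2 ≤ pend H c →
      (∀ x, x ≠ c → deg H x < deg H c ∧ deg H x ≤ pend H c) → HasFiniteSaturated H) := by
  constructor
  · rintro n H c u v huv hu hv ⟨r, h1, h2⟩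
    exact host huv hu hv h1 h2
  · intro n H c h3 h2 hx
    classical
    have hfin : ({l | ∀ y, H.Adj l y ↔ y = c} : Set (Fin n)).Finite := Set.toFinite _
    have hL : ∀ l, l ∈ hfin.toFinset ↔ ∀ y, H.Adj l y ↔ y = c := by
      intro l
      rw [Set.Finite.mem_toFinset]
      exact Iff.rfl
    have hLc : hfin.toFinset.card = pend H c := (Set.ncard_eq_toFinset_card _ hfin).symm
    have hnb : ∀ x, (IndSat.nb H x).card = deg H x := by
      intro x
      unfold deg
      rw [← Set.ncard_coe_finset]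
      congr 1
      ext y
      rw [Finset.mem_coe, IndSat.mem_nb]
      exact Iff.rfl
    obtain ⟨u, hu, v, hv, huv⟩ := Finset.one_lt_card.1 (show 1 < hfin.toFinset.card by
      rw [hLc]
      exact h2)
    obtain ⟨r, h4, h5⟩ := IndSat.rep_pendant (c := c) hL (by rw [hLc]; exact h2)
      (by rw [hnb]; exact h3)
      (by
        intro x hxc
        rw [hnb, hnb, hLc]
        exact ⟨(hx x hxc).2, (hx x hxc).1⟩) hv
    exact host huv ((hL u).1 hu) ((hL v).1 hv) h4 h5

end Pool.Agent.Results.MP_cdca5f_co.PendantVertices
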