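import Pool.Agent.IndSat.Fits

set_option autoImplicit false

namespace Pool.Agent.Results.MP_cdca5f_co.SymplecticHosts

/-- `G` is `H`-induced-saturated: `G` has no induced copy of `H`, and every graph `G'` on the same
vertex set that differs from `G` in exactly one pair `e` has an induced copy of `H`. -/
def InducedSaturated {V W : Type} (H : SimpleGraph V) (G : SimpleGraph W) : Prop :=
  IsEmpty (H ↪g G) ∧
    ∀ G' : SimpleGraph W,
      (∃ e : Sym2 W, ∀ f : Sym2 W, ((f ∈ G.edgeSet ↔ f ∈ G'.edgeSet) ↔ f ≠ e)) →
      Nonempty (H ↪g G')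

/-- The symplectic graph `Sp(2d, 2)`: the nonzero vectors of `F_2^{2d}`, two of them adjacent when
the standard symplectic form takes the value `1` on them. -/
def Symp (d : ℕ) : SimpleGraph {x : Fin d → ZMod 2 × ZMod 2 // x ≠ 0} where
  Adj x y := ∑ t, ((x.1 t).1 * (y.1 t).2 + (x.1 t).2 * (y.1 t).1) = 1
  symm := ⟨fun x y h => by
    rw [← h]
    exact Finset.sum_congr rfl fun t _ => by ring⟩
  loopless := ⟨fun x h => by
    have h0 : ∑ t, ((x.1 t).1 * (x.1 t).2 + (x.1 t).2 * (x.1 t).1) = 0 :=
      Finset.sum_eq_zero fun t _ => by rw [mul_comm, CharTwo.add_self_eq_zero]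
    rw [h0] at h
    exact zero_ne_one h⟩

open Classical in
/-- The rank over `F_2` of the adjacency matrix. -/
noncomputable def rankTwo {V : Type} [Fintype V] (K : SimpleGraph V) : ℕ :=
  (Matrix.of fun u v : V => if K.Adj u v then (1 : ZMod 2) else 0).rank

/-- The numerical condition: for some `t`, the rank over `F_2` of the adjacency matrix plus `2t`
is at most `2d`, every class of vertices with the same neighbours has at most `2^t` elements, and
there are fewer than `2^t` isolated vertices. -/
def Fits {V : Type} [Fintype V] (K : SimpleGraph V) (d : ℕ) : Prop :=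
  ∃ t : ℕ, rankTwo K + 2 * t ≤ 2 * d ∧
    (∀ v, {u | K.neighborSet u = K.neighborSet v}.ncard ≤ 2 ^ t) ∧
    {u | K.neighborSet u = ∅}.ncard < 2 ^ t

lemma fits_eq {V : Type} [Fintype V] [DecidableEq V] (K : SimpleGraph V) (d : ℕ) :
    Fits K d ↔ IndSat.Fits K d := by
  have h : rankTwo K = (IndSat.adj K).rank := by
    unfold rankTwo IndSat.adj
    congr
  unfold Fits IndSat.Fits
  rw [h]
  rfl

/-- Which finite graphs `H` have the symplectic graph `Sp(2d, 2)` as an `H`-induced-saturated
graph: exactly those that do not satisfy the numerical condition while deleting some edge gives a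
graph that satisfies it and adding some edge gives a graph that satisfies it. -/
theorem result {V : Type} [Fintype V] (H : SimpleGraph V) (d : ℕ) (hd : 2 ≤ d) :
    InducedSaturated H (Symp d) ↔
      ¬ Fits H d ∧
      (∃ u v, H.Adj u v ∧ Fits (H.deleteEdges {s(u, v)}) d) ∧
      (∃ u v, u ≠ v ∧ ¬ H.Adj u v ∧ Fits (H ⊔ SimpleGraph.edge u v) d) := by
  classical
  simp only [fits_eq]
  exact IndSat.sat_iff_fits hd

end Pool.Agent.Results.MP_cdca5f_co.SymplecticHosts
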